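import Pool.Agent.K1H27.VM.Stm

/-!
# Hille-Tamarkin integral operators on `L^p` and their transposes
-/

set_option autoImplicit false
set_option linter.unusedSectionVars false

namespace Pool.Agent.K1H28.VM

open MeasureTheory Set Metric Filter Topology
open scoped ENNReal NNReal
open Pool.Agent.K1H27.VM

variable {S : Type} [MeasurableSpace S] {μ : Measure S} [SigmaFinite μ] {p q : ℝ≥0∞}

/-- the norm of the kernel in the second variable -/
noncomputable def rowN (μ : Measure S) (q : ℝ≥0∞) (k : S → S → ℂ) (x : S) : ℝ≥0∞ :=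
  (∫⁻ y, ‖k x y‖ₑ ^ q.toReal ∂μ) ^ (1 / q.toReal)

lemma rowN_meas {k : S → S → ℂ} (hk : Measurable (Function.uncurry k)) : Measurable (rowN μ q k) :=
  (Measurable.lintegral_prod_right' (f := fun z : S × S => ‖k z.1 z.2‖ₑ ^ q.toReal)
    (hk.enorm.pow_const _)).pow_const _

lemma lint_rowN (hp0 : 0 < p.toReal) (hq0 : 0 < q.toReal) (k : S → S → ℂ) :
    ∫⁻ x, rowN μ q k x ^ p.toReal ∂μ = HT μ p q k := by
  unfold rowN HT
  refine lintegral_congr fun x => ?_
  rw [← ENNReal.rpow_mul]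
  congr 1
  field_simp

lemma rowN_lt (hp0 : 0 < p.toReal) (hq0 : 0 < q.toReal) {k : S → S → ℂ}
    (hk : Measurable (Function.uncurry k)) (hHT : HT μ p q k ≠ ∞) : ∀ᵐ x ∂μ, rowN μ q k x < ∞ := by
  have h1 := ae_lt_top (((rowN_meas (μ := μ) (q := q) hk)).pow_const p.toReal)
    (by rw [lint_rowN hp0 hq0]; exact hHT)
  filter_upwards [h1] with x hx
  by_contra h
  rw [not_lt, top_le_iff] at h
  rw [h, ENNReal.top_rpow_of_pos hp0] at hx
  exact lt_irrefl _ hx

lemma row_holder (hpq : p.toReal.HolderConjugate q.toReal) {k : S → S → ℂ}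
    (hk : Measurable (Function.uncurry k)) {f : S → ℂ} (hf : Measurable f) (x : S) :
    ∫⁻ y, ‖k x y * f y‖ₑ ∂μ ≤ rowN μ q k x * (∫⁻ y, ‖f y‖ₑ ^ p.toReal ∂μ) ^ (1 / p.toReal) := by
  have hkx : Measurable (k x) := hk.comp measurable_prodMk_left
  have h1 := ENNReal.lintegral_mul_le_Lp_mul_Lq μ hpq.symm (f := fun y => ‖k x y‖ₑ)
    (g := fun y => ‖f y‖ₑ) hkx.enorm.aemeasurable hf.enorm.aemeasurable
  refine le_trans (le_of_eq ?_) h1
  refine lintegral_congr fun y => ?_
  rw [enorm_mul, Pi.mul_apply]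

lemma lp_meas [Fact (1 ≤ p)] (f : Lp ℂ p μ) : Measurable (f : S → ℂ) := (Lp.stronglyMeasurable f).measurable

lemma norm_eq (hp0 : 0 < p.toReal) (hp : p ≠ ∞) (f : S → ℂ) :
    eLpNorm f p μ = (∫⁻ y, ‖f y‖ₑ ^ p.toReal ∂μ) ^ (1 / p.toReal) :=
  eLpNorm_eq_lintegral_rpow_enorm_toReal (by
    rintro rfl
    simp at hp0) hp

/-- the integral -/
noncomputable def io (μ : Measure S) (k : S → S → ℂ) (f : S → ℂ) (x : S) : ℂ := ∫ y, k x y * f y ∂μ

lemma io_meas {k : S → S → ℂ} (hk : Measurable (Function.uncurry k)) {f : S → ℂ} (hf : Measurable f) :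
    Measurable (io μ k f) := by
  have h1 : Measurable fun z : S × S => k z.1 z.2 * f z.2 := hk.mul (hf.comp measurable_snd)
  exact (h1.stronglyMeasurable.integral_prod_right').measurable

lemma io_le (hpq : p.toReal.HolderConjugate q.toReal) {k : S → S → ℂ}
    (hk : Measurable (Function.uncurry k)) {f : S → ℂ} (hf : Measurable f) (x : S) :
    ‖io μ k f x‖ₑ ≤ rowN μ q k x * (∫⁻ y, ‖f y‖ₑ ^ p.toReal ∂μ) ^ (1 / p.toReal) :=
  (enorm_integral_le_lintegral_enorm _).trans (row_holder hpq hk hf x)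

lemma io_norm (hpq : p.toReal.HolderConjugate q.toReal) (hp : p ≠ ∞) {k : S → S → ℂ}
    (hk : Measurable (Function.uncurry k)) {f : S → ℂ} (hf : Measurable f) :
    eLpNorm (io μ k f) p μ ≤ HT μ p q k ^ (1 / p.toReal) * eLpNorm f p μ := by
  have hp0 := hpq.pos
  have hq0 := hpq.symm.pos
  rw [norm_eq hp0 hp (io μ k f), norm_eq hp0 hp f, ← lint_rowN hp0 hq0,
    ← ENNReal.mul_rpow_of_nonneg _ _ (by positivity)]
  refine ENNReal.rpow_le_rpow ?_ (by positivity)
  rw [← lintegral_mul_const _ ((rowN_meas hk).pow_const _)]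
  refine lintegral_mono fun x => ?_
  refine (ENNReal.rpow_le_rpow (io_le hpq hk hf x) hp0.le).trans (le_of_eq ?_)
  rw [ENNReal.mul_rpow_of_nonneg _ _ hp0.le, ← ENNReal.rpow_mul, one_div,
    inv_mul_cancel₀ hp0.ne', ENNReal.rpow_one]

lemma io_memLp [Fact (1 ≤ p)] (hpq : p.toReal.HolderConjugate q.toReal) (hp : p ≠ ∞) {k : S → S → ℂ}
    (hk : Measurable (Function.uncurry k)) (hHT : HT μ p q k ≠ ∞) (f : Lp ℂ p μ) :
    MemLp (io μ k f) p μ := by
  refine ⟨(io_meas hk (lp_meas f)).aestronglyMeasurable, ?_⟩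
  refine (io_norm hpq hp hk (lp_meas f)).trans_lt (ENNReal.mul_lt_top ?_ (Lp.eLpNorm_lt_top f))
  exact ENNReal.rpow_lt_top_of_nonneg (by have := hpq.pos; positivity) hHT

lemma row_int [Fact (1 ≤ p)] (hpq : p.toReal.HolderConjugate q.toReal) (hp : p ≠ ∞) {k : S → S → ℂ}
    (hk : Measurable (Function.uncurry k)) (hHT : HT μ p q k ≠ ∞) (f : Lp ℂ p μ) :
    ∀ᵐ x ∂μ, Integrable (fun y => k x y * f y) μ := by
  have hp0 := hpq.pos
  filter_upwards [rowN_lt hp0 hpq.symm.pos hk hHT] with x hx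
  refine ⟨((hk.comp measurable_prodMk_left).mul (lp_meas f)).aestronglyMeasurable, ?_⟩
  refine (row_holder hpq hk (lp_meas f) x).trans_lt (ENNReal.mul_lt_top hx ?_)
  rw [← norm_eq hp0 hp]
  exact Lp.eLpNorm_lt_top f

/-- the operator -/
theorem exists_op [Fact (1 ≤ p)] (hpq : p.toReal.HolderConjugate q.toReal) (hp : p ≠ ∞) {k : S → S → ℂ}
    (hk : Measurable (Function.uncurry k)) (hHT : HT μ p q k ≠ ∞) :
    ∃ V : Lp ℂ p μ →L[ℂ] Lp ℂ p μ, IsInt k V := by
  let L : Lp ℂ p μ →ₗ[ℂ] Lp ℂ p μ :=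
    { toFun := fun f => (io_memLp hpq hp hk hHT f).toLp _
      map_add' := by
        intro f g
        apply Lp.ext
        filter_upwards [(io_memLp hpq hp hk hHT (f + g)).coeFn_toLp, (io_memLp hpq hp hk hHT f).coeFn_toLp,
          (io_memLp hpq hp hk hHT g).coeFn_toLp,
          Lp.coeFn_add ((io_memLp hpq hp hk hHT f).toLp _) ((io_memLp hpq hp hk hHT g).toLp _),
          row_int hpq hp hk hHT f, row_int hpq hp hk hHT g] with x h1 h2 h3 h4 h5 h6
        rw [h1, h4, Pi.add_apply, h2, h3]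
        unfold io
        rw [← integral_add h5 h6]
        refine integral_congr_ae ?_
        filter_upwards [Lp.coeFn_add f g] with y hy
        rw [hy, Pi.add_apply, mul_add]
      map_smul' := by
        intro c f
        apply Lp.ext
        filter_upwards [(io_memLp hpq hp hk hHT (c • f)).coeFn_toLp, (io_memLp hpq hp hk hHT f).coeFn_toLp,
          Lp.coeFn_smul c ((io_memLp hpq hp hk hHT f).toLp _)] with x h1 h2 h4
        rw [h1, RingHom.id_apply, h4, Pi.smul_apply, h2, smul_eq_mul]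
        unfold io
        rw [← integral_const_mul]
        refine integral_congr_ae ?_
        filter_upwards [Lp.coeFn_smul c f] with y hy
        rw [hy, Pi.smul_apply, smul_eq_mul]
        ring }
  refine ⟨L.mkContinuous (HT μ p q k ^ (1 / p.toReal)).toReal fun f => ?_, fun f => ?_⟩
  · show ‖(io_memLp hpq hp hk hHT f).toLp _‖ ≤ _
    rw [Lp.norm_toLp, Lp.norm_def, ← ENNReal.toReal_mul]
    refine ENNReal.toReal_mono ?_ (io_norm hpq hp hk (lp_meas f))
    refine (ENNReal.mul_lt_top ?_ (Lp.eLpNorm_lt_top f)).ne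
    exact ENNReal.rpow_lt_top_of_nonneg (by have := hpq.pos; positivity) hHT
  · exact (io_memLp hpq hp hk hHT f).coeFn_toLp

/-- the transposed operator -/
theorem transp [Fact (1 ≤ p)] [Fact (1 ≤ q)] (hpq : p.toReal.HolderConjugate q.toReal) (hp : p ≠ ∞)
    (hq : q ≠ ∞) {k : S → S → ℂ} (hk : Measurable (Function.uncurry k)) (hHT : HT μ p q k ≠ ∞)
    (V : Lp ℂ p μ →L[ℂ] Lp ℂ p μ) (V' : Lp ℂ q μ →L[ℂ] Lp ℂ q μ) (hV : IsInt k V)
    (hV' : IsInt (fun x y => k y x) V') (f : Lp ℂ p μ) (g : Lp ℂ q μ) :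
    ∫ x, V' g x * f x ∂μ = ∫ x, g x * V f x ∂μ := by
  have hp0 := hpq.pos
  have hq0 := hpq.symm.pos
  set F : S → S → ℂ := fun x y => g x * (k x y * f y) with hF
  have hFm : Measurable (Function.uncurry F) :=
    ((lp_meas g).comp measurable_fst).mul (hk.mul ((lp_meas f).comp measurable_snd))
  have hFi : Integrable (Function.uncurry F) (μ.prod μ) := by
    refine ⟨hFm.aestronglyMeasurable, ?_⟩
    unfold HasFiniteIntegral
    rw [lintegral_prod _ hFm.enorm.aemeasurable]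
    set c : ℝ≥0∞ := (∫⁻ y, ‖f y‖ₑ ^ p.toReal ∂μ) ^ (1 / p.toReal) with hc
    have hcl : c < ∞ := by
      rw [hc, ← norm_eq hp0 hp]
      exact Lp.eLpNorm_lt_top f
    calc ∫⁻ x, ∫⁻ y, ‖Function.uncurry F (x, y)‖ₑ ∂μ ∂μ
        ≤ ∫⁻ x, (‖g x‖ₑ * rowN μ q k x) * c ∂μ := by
          refine lintegral_mono fun x => ?_
          have h1 : ∀ y, ‖Function.uncurry F (x, y)‖ₑ = ‖g x‖ₑ * ‖k x y * f y‖ₑ := fun y => by
            show ‖g x * (k x y * f y)‖ₑ = _
            rw [enorm_mul]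
          simp only [h1]
          have hkx : Measurable (k x) := hk.comp measurable_prodMk_left
          have hm : Measurable fun y => ‖k x y * f y‖ₑ := (hkx.mul (lp_meas f)).enorm
          rw [lintegral_const_mul _ hm, mul_assoc]
          exact mul_le_mul' le_rfl (row_holder hpq hk (lp_meas f) x)
      _ = (∫⁻ x, ‖g x‖ₑ * rowN μ q k x ∂μ) * c :=
          lintegral_mul_const _ ((lp_meas g).enorm.mul (rowN_meas hk))
      _ ≤ ((∫⁻ x, ‖g x‖ₑ ^ q.toReal ∂μ) ^ (1 / q.toReal) *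
            (∫⁻ x, rowN μ q k x ^ p.toReal ∂μ) ^ (1 / p.toReal)) * c := by
          refine mul_le_mul' ?_ le_rfl
          exact ENNReal.lintegral_mul_le_Lp_mul_Lq μ hpq.symm (lp_meas g).enorm.aemeasurable
            (rowN_meas hk).aemeasurable
      _ < ∞ := by
          refine ENNReal.mul_lt_top (ENNReal.mul_lt_top ?_ ?_) hcl
          · rw [← norm_eq hq0 hq]
            exact Lp.eLpNorm_lt_top g
          · rw [lint_rowN hp0 hq0]
            exact ENNReal.rpow_lt_top_of_nonneg (by positivity) hHT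
  have e1 : ∫ x, V' g x * f x ∂μ = ∫ y, ∫ x, F x y ∂μ ∂μ := by
    refine integral_congr_ae ?_
    filter_upwards [hV' g] with y hy
    rw [hy]
    simp only [hF]
    rw [← integral_mul_const]
    refine integral_congr_ae (Eventually.of_forall fun x => ?_)
    show k x y * g x * f y = g x * (k x y * f y)
    ring
  have e2 : ∫ x, g x * V f x ∂μ = ∫ x, ∫ y, F x y ∂μ ∂μ := by
    refine integral_congr_ae ?_
    filter_upwards [hV f] with x hx
    rw [hx]
    simp only [hF]
    rw [← integral_const_mul]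
  rw [e1, e2, integral_integral_swap hFi]

theorem t_OP : S_OP := by
  intro S _ μ _ p q _ _ hpq hp hq k hk hHT
  have h := ENNReal.HolderConjugate.toReal_of_ne_top (p := p) (q := q) hp hq
  exact ⟨exists_op h hp hk hHT, fun V V' hV hV' f g => transp h hp hq hk hHT V V' hV hV' f g⟩

end Pool.Agent.K1H28.VM
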