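import Pool.Agent.K1H28.VM.OP

/-!
# The duality of `L^p` and `L^q` and multiplication operators
-/

set_option autoImplicit false
set_option linter.unusedSectionVars false

namespace Pool.Agent.K1H28.VM

open MeasureTheory Set Metric Filter Topology
open scoped ENNReal NNReal
open Pool.Agent.K1H27.VM

variable {S : Type} [MeasurableSpace S] {μ : Measure S} [SigmaFinite μ] {p q : ℝ≥0∞}

/-- the dual function -/
noncomputable def dual (P : ℝ) (f : S → ℂ) (x : S) : ℂ := (starRingEnd ℂ) (f x) * ((‖f x‖ ^ (P - 2) : ℝ) : ℂ)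

lemma dual_norm {P : ℝ} (hP : 1 < P) (f : S → ℂ) (x : S) : ‖dual P f x‖ = ‖f x‖ ^ (P - 1) := by
  unfold dual
  rw [norm_mul, RCLike.norm_conj, Complex.norm_real, Real.norm_eq_abs,
    abs_of_nonneg (Real.rpow_nonneg (norm_nonneg _) _)]
  rcases eq_or_lt_of_le (norm_nonneg (f x)) with h | h
  · rw [← h, zero_mul, Real.zero_rpow (by linarith)]
  · nth_rewrite 1 [← Real.rpow_one ‖f x‖]
    rw [← Real.rpow_add h]
    congr 1
    ring

lemma dual_mul {P : ℝ} (hP : 1 < P) (f : S → ℂ) (x : S) : dual P f x * f x = ((‖f x‖ ^ P : ℝ) : ℂ) := by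
  unfold dual
  rw [mul_right_comm, ← Complex.normSq_eq_conj_mul_self, Complex.normSq_eq_norm_sq]
  rw [← Complex.ofReal_mul]
  congr 1
  rcases eq_or_lt_of_le (norm_nonneg (f x)) with h | h
  · have h0 : (0 : ℝ) ^ P = 0 := Real.zero_rpow (by linarith)
    rw [← h, h0]
    simp
  · rw [← Real.rpow_natCast, ← Real.rpow_add h]
    congr 1
    push_cast
    ring

lemma dual_meas {P : ℝ} {f : S → ℂ} (hf : Measurable f) : Measurable (dual P f) :=
  (continuous_star.measurable.comp hf).mul (Complex.measurable_ofReal.comp (hf.norm.pow_const _))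

lemma enorm_pow (P : ℝ) (hP : 0 ≤ P) (z : ℂ) : ‖z‖ₑ ^ P = ENNReal.ofReal (‖z‖ ^ P) := by
  rw [← ofReal_norm, ENNReal.ofReal_rpow_of_nonneg (norm_nonneg _) hP]

/-- the norming functions -/
theorem norming [Fact (1 ≤ p)] [Fact (1 ≤ q)] (hpq : p.toReal.HolderConjugate q.toReal) (hp : p ≠ ∞)
    (hq : q ≠ ∞) (f : Lp ℂ p μ) :
    ∃ g : Lp ℂ q μ, ‖g‖ ≤ 1 ∧ ∫ x, g x * f x ∂μ = ((‖f‖ : ℝ) : ℂ) := by
  have hp0 := hpq.pos
  have hq0 := hpq.symm.pos
  have hP1 : 1 < p.toReal := hpq.lt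
  rcases eq_or_ne f 0 with rfl | hf
  · refine ⟨0, by simp, ?_⟩
    rw [norm_zero]
    have : ∫ x, (0 : Lp ℂ q μ) x * (0 : Lp ℂ p μ) x ∂μ = ∫ _, (0 : ℂ) ∂μ := by
      refine integral_congr_ae ?_
      filter_upwards [Lp.coeFn_zero ℂ p μ] with x hx
      rw [hx]
      simp
    rw [this]
    simp
  set P := p.toReal with hPd
  set Q := q.toReal with hQd
  set n : ℝ := ‖f‖ with hn
  have hn0 : 0 < n := norm_pos_iff.2 hf
  have hfm := lp_meas f
  have hint : ∫⁻ x, ‖f x‖ₑ ^ P ∂μ = ENNReal.ofReal n ^ P := by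
    have h1 : ENNReal.ofReal n = (∫⁻ x, ‖f x‖ₑ ^ P ∂μ) ^ (1 / P) := by
      rw [hPd, ← norm_eq hp0 hp f, hn, Lp.norm_def, ENNReal.ofReal_toReal (Lp.eLpNorm_ne_top f)]
    rw [h1, ← ENNReal.rpow_mul, one_div, inv_mul_cancel₀ hp0.ne', ENNReal.rpow_one]
  have hgm : Measurable (dual P f) := dual_meas hfm
  have hPQ : (P - 1) * Q = P := hpq.sub_one_mul_conj
  have hgn : ∫⁻ x, ‖dual P f x‖ₑ ^ Q ∂μ = ENNReal.ofReal n ^ P := by
    rw [← hint]
    refine lintegral_congr fun x => ?_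
    rw [enorm_pow Q hq0.le, enorm_pow P hp0.le, dual_norm hP1, ← Real.rpow_mul (norm_nonneg _), hPQ]
  have hgL : eLpNorm (dual P f) q μ = ENNReal.ofReal n ^ (P - 1) := by
    rw [norm_eq hq0 hq, ← hQd, hgn, ← ENNReal.rpow_mul]
    congr 1
    rw [← hPQ]
    field_simp
    rw [hPQ]
  have hmem : MemLp (dual P f) q μ := by
    refine ⟨hgm.aestronglyMeasurable, ?_⟩
    rw [hgL]
    exact ENNReal.rpow_lt_top_of_nonneg (by linarith) ENNReal.ofReal_ne_top
  have hc0 : 0 < n ^ (P - 1) := Real.rpow_pos_of_pos hn0 _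
  refine ⟨(((n ^ (P - 1))⁻¹ : ℝ) : ℂ) • hmem.toLp _, ?_, ?_⟩
  · rw [norm_smul, Lp.norm_toLp, hgL, Complex.norm_real, Real.norm_eq_abs, abs_of_pos (inv_pos.2 hc0),
      ← ENNReal.toReal_rpow, ENNReal.toReal_ofReal hn0.le, inv_mul_cancel₀ hc0.ne']
  · have e1 : ∫ x, ((((n ^ (P - 1))⁻¹ : ℝ) : ℂ) • hmem.toLp (dual P f) : Lp ℂ q μ) x * f x ∂μ =
        ∫ x, (((n ^ (P - 1))⁻¹ * ‖f x‖ ^ P : ℝ) : ℂ) ∂μ := by
      refine integral_congr_ae ?_
      filter_upwards [Lp.coeFn_smul (((n ^ (P - 1))⁻¹ : ℝ) : ℂ) (hmem.toLp (dual P f)), hmem.coeFn_toLp]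
        with x h1 h2
      rw [h1, Pi.smul_apply, h2, smul_eq_mul, mul_assoc, dual_mul hP1]
      push_cast
      ring
    rw [e1, integral_complex_ofReal, integral_const_mul]
    congr 1
    have e2 : ∫ x, ‖f x‖ ^ P ∂μ = n ^ P := by
      rw [integral_eq_lintegral_of_nonneg_ae (Eventually.of_forall fun x => Real.rpow_nonneg (norm_nonneg _) _)
        (hfm.norm.pow_const _).aestronglyMeasurable]
      have : ∫⁻ x, ENNReal.ofReal (‖f x‖ ^ P) ∂μ = ∫⁻ x, ‖f x‖ₑ ^ P ∂μ :=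
        lintegral_congr fun x => (enorm_pow P hp0.le _).symm
      rw [this, hint, ← ENNReal.toReal_rpow, ENNReal.toReal_ofReal hn0.le]
    rw [e2, inv_mul_eq_div, ← Real.rpow_sub hn0]
    have : P - (P - 1) = 1 := by ring
    rw [this, Real.rpow_one]

/-- multiplication operators -/
theorem exists_mul [Fact (1 ≤ p)] {φ : S → ℂ} (hφ : Measurable φ) (hb : ∃ M : ℝ, ∀ x, ‖φ x‖ ≤ M) :
    ∃ N : Lp ℂ p μ →L[ℂ] Lp ℂ p μ, IsMul φ N := by
  obtain ⟨M, hM⟩ := hb
  have hmem : ∀ f : Lp ℂ p μ, MemLp (fun x => φ x * f x) p μ := fun f =>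
    (Lp.memLp f).of_le_mul (hφ.mul (lp_meas f)).aestronglyMeasurable (c := M) (Eventually.of_forall fun x => by
      rw [norm_mul]
      exact mul_le_mul_of_nonneg_right (hM x) (norm_nonneg _))
  let L : Lp ℂ p μ →ₗ[ℂ] Lp ℂ p μ :=
    { toFun := fun f => (hmem f).toLp _
      map_add' := by
        intro f g
        apply Lp.ext
        filter_upwards [(hmem (f + g)).coeFn_toLp, (hmem f).coeFn_toLp, (hmem g).coeFn_toLp,
          Lp.coeFn_add ((hmem f).toLp _) ((hmem g).toLp _), Lp.coeFn_add f g] with x h1 h2 h3 h4 h5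
        rw [h1, h4, Pi.add_apply, h2, h3, h5, Pi.add_apply, mul_add]
      map_smul' := by
        intro c f
        apply Lp.ext
        filter_upwards [(hmem (c • f)).coeFn_toLp, (hmem f).coeFn_toLp,
          Lp.coeFn_smul c ((hmem f).toLp _), Lp.coeFn_smul c f] with x h1 h2 h4 h5
        rw [h1, RingHom.id_apply, h4, Pi.smul_apply, h2, h5, Pi.smul_apply, smul_eq_mul, smul_eq_mul]
        ring }
  refine ⟨L.mkContinuous M fun f => ?_, fun f => (hmem f).coeFn_toLp⟩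
  refine Lp.norm_le_mul_norm_of_ae_le_mul ?_
  filter_upwards [(hmem f).coeFn_toLp] with x h1
  show ‖((hmem f).toLp _ : Lp ℂ p μ) x‖ ≤ _
  rw [h1, norm_mul]
  exact mul_le_mul_of_nonneg_right (hM x) (norm_nonneg _)

theorem t_PAIR : S_PAIR := by
  intro S _ μ _ p q _ _ hpq hp hq
  have h := ENNReal.HolderConjugate.toReal_of_ne_top (p := p) (q := q) hp hq
  have hqp : q.HolderConjugate p := hpq.symm
  refine ⟨?_, fun φ hφ hb => exists_mul hφ hb⟩
  have hB : ∀ (g : Lp ℂ q μ) (f : Lp ℂ p μ),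
      (ContinuousLinearMap.mul ℂ ℂ).lpPairing μ q p g f = ∫ x, g x * f x ∂μ := by
    intro g f
    rw [ContinuousLinearMap.lpPairing_eq_integral]
    rfl
  refine ⟨(ContinuousLinearMap.mul ℂ ℂ).lpPairing μ q p, hB, fun g hg => ?_, fun f => ?_⟩
  · obtain ⟨f, _, hf⟩ := norming (μ := μ) h.symm hq hp g
    have h1 : (ContinuousLinearMap.mul ℂ ℂ).lpPairing μ q p g f = 0 := by
      rw [hg]
      rfl
    rw [hB] at h1
    have h2 : ∫ x, g x * f x ∂μ = ∫ x, f x * g x ∂μ := by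
      refine integral_congr_ae (Eventually.of_forall fun x => ?_)
      exact mul_comm _ _
    rw [h2, hf] at h1
    have h3 : ‖g‖ = 0 := by exact_mod_cast h1
    exact norm_eq_zero.1 h3
  · obtain ⟨g, hg1, hg2⟩ := norming (μ := μ) h hp hq f
    exact ⟨g, hg1, by rw [hB]; exact hg2⟩

end Pool.Agent.K1H28.VM
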